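import Pool.Agent.H317.GH.Stm

/-!
# Project GH, statement `S_INH`: integrality of the intertwining matrix, second form

Adaptation of `Pool/Agent/H322/GR/ING.lean` (helper322).
-/

set_option autoImplicit false

namespace Pool.Agent.H695.GH

open Matrix Module Pool.Agent.H317.GR Pool.Agent.H317.GH

variable {n : ℕ}

lemma inh_toZMod_zero {p : ℕ} [Fact p.Prime] (x : ℤ_[p]) :
    PadicInt.toZMod x = 0 ↔ ¬ IsUnit x := by
  rw [← RingHom.mem_ker, PadicInt.ker_toZMod, IsLocalRing.mem_maximalIdeal, mem_nonunits_iff]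

lemma inh_dvd {p : ℕ} [Fact p.Prime] (x : ℤ_[p]) (h : (p : ℤ_[p]) ∣ x) :
    PadicInt.toZMod x = 0 := by
  rw [← RingHom.mem_ker, PadicInt.ker_toZMod, PadicInt.maximalIdeal_eq_span_p,
    Ideal.mem_span_singleton]
  exact h

theorem inh : S_INH := by
  intro n hn p _ Λ _ ρ σ hd P hP
  have hp : p.Prime := Fact.out
  have : Nonempty (Fin n × Fin n) := ⟨(⟨0, by omega⟩, ⟨0, by omega⟩)⟩
  obtain ⟨m, hm⟩ := Finite.exists_max (fun ij : Fin n × Fin n => ‖P.val ij.1 ij.2‖)
  set c := P.val m.1 m.2 with hc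
  have hPne : P.val ≠ 0 := by
    intro h
    have h1 : P.val * (P⁻¹).val = 1 := by
      rw [← Units.val_mul, mul_inv_cancel]; rfl
    rw [h, zero_mul] at h1
    have h2 := congrFun (congrFun h1 ⟨0, by omega⟩) ⟨0, by omega⟩
    simp at h2
  have hc0 : c ≠ 0 := by
    intro h
    apply hPne
    ext i j
    have h1 : ‖P.val i j‖ ≤ ‖c‖ := hm (i, j)
    rw [h, norm_zero] at h1
    exact norm_le_zero_iff.1 h1
  have hnm : ∀ i j, ‖P.val i j / c‖ ≤ 1 := by
    intro i j
    rw [norm_div, div_le_one (norm_pos_iff.2 hc0)]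
    exact hm (i, j)
  set Y : Matrix (Fin n) (Fin n) ℤ_[p] := Matrix.of fun i j => ⟨P.val i j / c, hnm i j⟩ with hY
  have hYc : ∀ i j, ((Y i j : ℤ_[p]) : ℚ_[p]) = P.val i j / c := fun i j => rfl
  have hYeq : ∀ g, (σ g).val * Y = Y * (ρ g).val := by
    intro g
    ext i j
    have h1 : (toQ n p (σ g) * P).val i j =
        (P * toQ n p (ρ g)).val i j := by rw [hP g]
    have h2 : ((toQ n p (σ g) * P).val i j : ℚ_[p]) =
        ∑ k, (((σ g).val i k : ℤ_[p]) : ℚ_[p]) * P.val k j := rfl
    have h3 : ((P * toQ n p (ρ g)).val i j : ℚ_[p]) =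
        ∑ k, P.val i k * (((ρ g).val k j : ℤ_[p]) : ℚ_[p]) := rfl
    rw [h2, h3] at h1
    apply Subtype.coe_injective
    rw [Matrix.mul_apply, Matrix.mul_apply]
    change (((∑ k, (σ g).val i k * Y k j : ℤ_[p])) : ℚ_[p]) =
      ((∑ k, Y i k * (ρ g).val k j : ℤ_[p]) : ℚ_[p])
    rw [PadicInt.coe_sum, PadicInt.coe_sum]
    simp only [PadicInt.coe_mul, hYc]
    have e1 : ∑ k, (((σ g).val i k : ℤ_[p]) : ℚ_[p]) * (P.val k j / c) =
        (∑ k, (((σ g).val i k : ℤ_[p]) : ℚ_[p]) * P.val k j) / c := by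
      rw [Finset.sum_div]
      exact Finset.sum_congr rfl fun k _ => by ring
    have e2 : ∑ k, P.val i k / c * (((ρ g).val k j : ℤ_[p]) : ℚ_[p]) =
        (∑ k, P.val i k * (((ρ g).val k j : ℤ_[p]) : ℚ_[p])) / c := by
      rw [Finset.sum_div]
      exact Finset.sum_congr rfl fun k _ => by ring
    rw [e1, e2, h1]
  -- reduction modulo p
  set Z : Matrix (Fin n) (Fin n) (ZMod p) := (PadicInt.toZMod (p := p)).mapMatrix Y with hZ
  have hZm : Z m.1 m.2 = 1 := by
    have h3 : Y m.1 m.2 = 1 := by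
      apply Subtype.coe_injective
      change P.val m.1 m.2 / c = ((1 : ℤ_[p]) : ℚ_[p])
      rw [← hc, div_self hc0, PadicInt.coe_one]
    change PadicInt.toZMod (Y m.1 m.2) = 1
    rw [h3, map_one]
  have hker : ∀ w : Fin n → ZMod p, Z *ᵥ w = 0 → ∀ A : SZ n,
      Z *ᵥ ((A.val.map (Int.castRingHom (ZMod p))) *ᵥ w) = 0 := by
    intro w hw A
    obtain ⟨g, hg⟩ := hd A 1
    have h1 : (PadicInt.toZMod (p := p)).mapMatrix (ρ g).val =
        A.val.map (Int.castRingHom (ZMod p)) := by
      ext i j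
      have h2 := inh_dvd _ (by simpa using hg i j)
      rw [map_sub, sub_eq_zero, map_intCast] at h2
      exact h2
    have h3 := congrArg (PadicInt.toZMod (p := p)).mapMatrix (hYeq g)
    rw [map_mul, map_mul, h1] at h3
    rw [Matrix.mulVec_mulVec, ← h3, ← Matrix.mulVec_mulVec, hw, Matrix.mulVec_zero]
  have hstep : ∀ w : Fin n → ZMod p, Z *ᵥ w = 0 → ∀ i j : Fin n, i ≠ j → w j ≠ 0 →
      Z *ᵥ (Pi.single i 1) = 0 := by
    intro w hw i j hij hwj
    have h1 := hker w hw (SpecialLinearGroup.transvection hij 1)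
    have h2 : ((SpecialLinearGroup.transvection hij (1 : ℤ)).val.map
        (Int.castRingHom (ZMod p))) *ᵥ w = w + w j • (Pi.single i 1 : Fin n → ZMod p) := by
      have e1 : ((SpecialLinearGroup.transvection hij (1 : ℤ)).val.map
          (Int.castRingHom (ZMod p))) = 1 + Matrix.single i j (1 : ZMod p) := by
        change ((Int.castRingHom (ZMod p)).mapMatrix
          ((1 : Matrix (Fin n) (Fin n) ℤ) + Matrix.single i j 1)) = _
        rw [map_add, map_one]
        congr 1
        ext a b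
        simp only [RingHom.mapMatrix_apply, Matrix.map_apply, Matrix.single, Matrix.of_apply]
        split_ifs <;> simp
      rw [e1, Matrix.add_mulVec, Matrix.one_mulVec]
      congr 1
      ext a
      rw [Matrix.mulVec, dotProduct, Finset.sum_eq_single j]
      · by_cases ha : a = i
        · subst ha; simp
        · rw [Matrix.single_apply_of_ne]
          · simp [ha]
          · intro h; exact ha h.1.symm
      · intro b _ hb
        rw [Matrix.single_apply_of_ne]
        · simp
        · intro h; exact hb h.2.symm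
      · intro h; exact absurd (Finset.mem_univ j) h
    rw [h2, Matrix.mulVec_add, hw, zero_add, Matrix.mulVec_smul] at h1
    rcases smul_eq_zero.1 h1 with h | h
    · exact absurd h hwj
    · exact h
  have hdet : Z.det ≠ 0 := by
    intro h0
    obtain ⟨w, hw0, hw⟩ := Matrix.exists_mulVec_eq_zero_iff.2 h0
    obtain ⟨j, hj⟩ := Function.ne_iff.1 hw0
    obtain ⟨i, hi⟩ : ∃ i : Fin n, i ≠ j := by
      by_cases h0 : j = ⟨0, by omega⟩
      · exact ⟨⟨1, by omega⟩, by rw [h0]; simp [Fin.ext_iff]⟩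
      · exact ⟨_, Ne.symm h0⟩
    have hall : ∀ a : Fin n, Z *ᵥ (Pi.single a 1) = 0 := by
      intro a
      by_cases ha : a = j
      · subst ha
        exact hstep (Pi.single i 1) (hstep w hw i a hi hj) a i hi.symm (by simp)
      · exact hstep w hw a j ha hj
    have h1 := congrFun (hall m.2) m.1
    rw [Matrix.mulVec_single_one] at h1
    have h2 : Z m.1 m.2 = 0 := h1
    rw [hZm] at h2
    exact one_ne_zero h2
  have hunit : IsUnit Y.det := by
    by_contra hnu
    rw [← inh_toZMod_zero] at hnu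
    apply hdet
    rw [hZ, ← RingHom.map_det]
    exact hnu
  refine ⟨GeneralLinearGroup.mk'' Y hunit, fun g => ?_⟩
  apply Units.ext
  exact hYeq g

end Pool.Agent.H695.GH
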